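import Pool.Agent.H533.QS.Mast

/-!
The integers of a residue class modulo `M`, `M` at most a power of the logarithm.
-/

set_option autoImplicit false

open Finset Filter Topology

namespace Pool.Agent.H533.QS

open Pool.Agent.H361R2.PP
open Pool.Agent.H96R2.EQP
open Pool.Agent.H398R2.BV
open Pool.Agent.H20R2.EQI
open Pool.Agent.H533.QM

/-- the integers of `[X, 2X)` in the class `v` modulo `M` -/
def Sk (X M v : ℕ) : Finset ℕ := (Ico X (2 * X)).filter (fun n => n % M = v)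

theorem mem_Sk {X M v n : ℕ} : n ∈ Sk X M v ↔ (X ≤ n ∧ n < 2 * X) ∧ n % M = v := by
  unfold Sk
  rw [mem_filter, mem_Ico]

theorem cop_prod {M : ℕ} {D : Finset ℕ} (hD : ∀ p ∈ D, p.Prime ∧ ¬ p ∣ M) :
    M.Coprime (∏ p ∈ D, p) := by
  apply Nat.Coprime.prod_right
  intro p hp
  exact ((Nat.Prime.coprime_iff_not_dvd (hD p hp).1).2 (hD p hp).2).symm

theorem eqdK (X M v : ℕ) (hM : 0 < M) (hv : v < M) (P : Finset ℕ)
    (hP : ∀ p ∈ P, p.Prime ∧ ¬ p ∣ M) :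
    Eqd none P (Sk X M v) ((X : ℝ) / M) (fun _ => 1) := by
  refine ⟨?_, fun _ => by positivity, ?_⟩
  · intro n _ p _ a ha
    simp at ha
  · intro D hD r _
    have hDp : ∀ p ∈ D, p.Prime ∧ ¬ p ∣ M := fun p hp => hP p (hD hp)
    have hcop : M.Coprime (∏ p ∈ D, p) := cop_prod hDp
    have hDpos : 0 < ∏ p ∈ D, p := Finset.prod_pos (fun p hp => (hDp p hp).1.pos)
    obtain ⟨w, hv1, hv2⟩ := Nat.chineseRemainder hcop v r
    have hset : (Sk X M v).filter (fun n => ∀ p ∈ D, n % p = r % p) =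
        (Ico X (2 * X)).filter (fun n => n ≡ w [MOD M * ∏ p ∈ D, p] ∧
          ∀ p ∈ (∅ : Finset ℕ), ¬ p ∣ n) := by
      unfold Sk
      rw [filter_filter]
      apply filter_congr
      intro n _
      rw [modD D (fun p hp => (hDp p hp).1) n r, ← Nat.modEq_and_modEq_iff_modEq_mul hcop]
      have hbb : v % M = v := Nat.mod_eq_of_lt hv
      constructor
      · rintro ⟨h1, h2⟩
        refine ⟨⟨?_, h2.trans hv2.symm⟩, by simp⟩
        have : n ≡ v [MOD M] := by unfold Nat.ModEq; rw [h1, hbb]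
        exact this.trans hv1.symm
      · rintro ⟨⟨h1, h2⟩, -⟩
        refine ⟨?_, h2.trans hv2⟩
        have : n ≡ v [MOD M] := h1.trans hv1
        unfold Nat.ModEq at this
        rw [this, hbb]
    rw [hset]
    have hph : ∏ p ∈ D, ph none p = ((∏ p ∈ D, p : ℕ) : ℝ) := by
      push_cast
      apply prod_congr rfl
      intro p _
      simp [ph]
    have h := cnt_cop X ∅ (by simp) (M * ∏ p ∈ D, p) w (Nat.mul_pos hM hDpos) (by simp)
    rw [hph]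
    rw [prod_empty, mul_one, card_empty, pow_zero] at h
    have e : (X : ℝ) / M / ((∏ p ∈ D, p : ℕ) : ℝ) =
        (X : ℝ) / ((M * ∏ p ∈ D, p : ℕ) : ℝ) := by
      rw [Nat.cast_mul, div_div]
    rw [e]
    exact h

theorem eqIntK (K A E : ℕ) (θ : ℝ) (hθ : 0 < θ) (hθ1 : θ ≤ 1 / 32) : ∃ X₀ : ℕ, ∀ X : ℕ, X₀ ≤ X →
    ∀ M : ℕ, 0 < M → (M : ℝ) ≤ Real.log X ^ E → ∀ v : ℕ, v < M → ∀ P : Finset ℕ,
    (∀ p ∈ P, p.Prime ∧ ¬ p ∣ M) → ∃ Er : Finset ℕ → ℝ,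
      Eqd none P (Sk X M v) ((X : ℝ) / M) Er ∧
      ∑ D ∈ P.powerset.filter (fun D : Finset ℕ => ∏ p ∈ D, (p : ℝ) ≤ (X : ℝ) ^ (1 / 2 - θ)),
        (K : ℝ) ^ D.card * Er D ≤ ((X : ℝ) / M) / Real.log X ^ A := by
  set ε : ℝ := 1 / 4 with hε
  have hε0 : 0 < ε := by positivity
  set K1 : ℝ := (K : ℝ) + 2 with hK1
  have hK0 : (0 : ℝ) ≤ K := Nat.cast_nonneg K
  have hK11 : 1 ≤ K1 := by rw [hK1]; linarith
  obtain ⟨P0, hP0⟩ : ∃ P0 : ℕ, ∀ p : ℕ, P0 ≤ p → K1 ≤ (p : ℝ) ^ ε := by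
    have h1 : Filter.Tendsto (fun p : ℕ => (p : ℝ) ^ ε) Filter.atTop Filter.atTop :=
      (tendsto_rpow_atTop hε0).comp tendsto_natCast_atTop_atTop
    exact Filter.eventually_atTop.1 (h1.eventually_ge_atTop K1)
  obtain ⟨X₁, hX₁⟩ := ev_large (K1 ^ P0) (A + E) (1 / 8) (by norm_num)
  refine ⟨max X₁ 16, fun X hX M hM0 hML v hv P hP => ⟨fun _ => 1,
    eqdK X M v hM0 hv P hP, ?_⟩⟩
  have hX16 : 16 ≤ X := (le_max_right _ _).trans hX
  have hX' : (16 : ℝ) ≤ X := by exact_mod_cast hX16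
  have hX0 : (0 : ℝ) < X := by linarith
  have hlog : 1 ≤ Real.log X := by
    rw [Real.le_log_iff_exp_le (by linarith)]
    have := Real.exp_one_lt_d9
    linarith
  have hev := hX₁ X ((le_max_left _ _).trans hX)
  have hPp : ∀ p ∈ P, p.Prime := fun p hp => (hP p hp).1
  have hY0 : 0 < (X : ℝ) ^ (1 / 2 - θ) := Real.rpow_pos_of_pos hX0 _
  have hle : ∀ {x y : ℝ}, x ≤ y → (X : ℝ) ^ x ≤ (X : ℝ) ^ y := fun h =>
    Real.rpow_le_rpow_of_exponent_le (by linarith) h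
  have hM0r : (0 : ℝ) < M := by exact_mod_cast hM0
  calc ∑ D ∈ P.powerset.filter
          (fun D : Finset ℕ => ∏ p ∈ D, (p : ℝ) ≤ (X : ℝ) ^ (1 / 2 - θ)),
          (K : ℝ) ^ D.card * 1
      ≤ ∑ D ∈ P.powerset.filter
          (fun D : Finset ℕ => ∏ p ∈ D, (p : ℝ) ≤ (X : ℝ) ^ (1 / 2 - θ)),
            (K1 ^ P0 * ((X : ℝ) ^ (1 / 2 - θ)) ^ ε) := by
        apply sum_le_sum
        intro D hD
        rw [mem_filter, mem_powerset] at hD
        rw [mul_one]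
        have h1 : (K : ℝ) ^ D.card ≤ K1 ^ D.card :=
          pow_le_pow_left₀ (Nat.cast_nonneg K) (by rw [hK1]; linarith) _
        have h2 := pow_card_le K1 hK11 ε P0 hP0 hε0.le D
          (fun p hp => (hPp p (hD.1 hp)).one_le)
        refine h1.trans (h2.trans ?_)
        apply mul_le_mul_of_nonneg_left _ (by positivity)
        exact Real.rpow_le_rpow (by positivity) hD.2 hε0.le
    _ = ((P.powerset.filter
          (fun D : Finset ℕ => ∏ p ∈ D, (p : ℝ) ≤ (X : ℝ) ^ (1 / 2 - θ))).card : ℝ) *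
            (K1 ^ P0 * ((X : ℝ) ^ (1 / 2 - θ)) ^ ε) := by
        rw [sum_const, nsmul_eq_mul]
    _ ≤ (X : ℝ) ^ (1 / 2 - θ) * (K1 ^ P0 * ((X : ℝ) ^ (1 / 2 - θ)) ^ ε) := by
        apply mul_le_mul_of_nonneg_right _ (by positivity)
        refine (card_D P hPp _).trans ?_
        rw [max_eq_left hY0.le]
    _ = K1 ^ P0 * (X : ℝ) ^ ((1 / 2 - θ) + (1 / 2 - θ) * ε) := by
        rw [Real.rpow_add hX0, Real.rpow_mul hX0.le]; ring
    _ ≤ K1 ^ P0 * (X : ℝ) ^ (7 / 8 : ℝ) := by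
        apply mul_le_mul_of_nonneg_left _ (by positivity)
        apply hle
        rw [hε]; nlinarith
    _ ≤ (X : ℝ) / Real.log X ^ E / Real.log X ^ A := by
        rw [div_div, le_div_iff₀ (by positivity)]
        have h1 : (X : ℝ) = (X : ℝ) ^ (7 / 8 : ℝ) * (X : ℝ) ^ (1 / 8 : ℝ) := by
          rw [← Real.rpow_add hX0]; norm_num
        have h2 : Real.log X ^ E * Real.log X ^ A = Real.log X ^ (A + E) := by
          rw [pow_add]; ring
        rw [h2]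
        calc K1 ^ P0 * (X : ℝ) ^ (7 / 8 : ℝ) * Real.log X ^ (A + E)
            = (X : ℝ) ^ (7 / 8 : ℝ) * (K1 ^ P0 * Real.log X ^ (A + E)) := by ring
          _ ≤ (X : ℝ) ^ (7 / 8 : ℝ) * (X : ℝ) ^ (1 / 8 : ℝ) :=
              mul_le_mul_of_nonneg_left hev (by positivity)
          _ = X := h1.symm
    _ ≤ ((X : ℝ) / M) / Real.log X ^ A := by
        apply div_le_div_of_nonneg_right _ (by positivity)
        exact div_le_div_of_nonneg_left hX0.le hM0r hML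

/-- the main comparison -/
theorem main_cmpK {X W b y r : ℕ} {D : Finset ℕ} (_hX : 1 ≤ X) (hW : 0 < W)
    (hy : 1 ≤ y) (hb : b < W) (hD : ∀ p ∈ D, p.Prime)
    (hcop : W.Coprime (∏ p ∈ D, p)) (hba : (b + y).Coprime W)
    (hr : ∀ p ∈ D, ¬ p ∣ r + y) :
    ∃ c : ℕ, c.Coprime (W * ∏ p ∈ D, p) ∧
    |(((Spr (Sk X W b) y).filter (fun n => ∀ p ∈ D, n % p = r % p)).card : ℝ) -
        Pry X y / Nat.totient W / ∏ p ∈ D, ((p : ℝ) - 1)| ≤
    |H343E.piAP (2 * X + y - 1) (W * ∏ p ∈ D, p) c -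
        H343E.pi1 (2 * X + y - 1) / (Nat.totient (W * ∏ p ∈ D, p) : ℝ)| +
    |H343E.piAP (X + y - 1) (W * ∏ p ∈ D, p) c -
        H343E.pi1 (X + y - 1) / (Nat.totient (W * ∏ p ∈ D, p) : ℝ)| := by
  unfold Spr Sk
  obtain ⟨m, hm⟩ : ∃ m : ℕ, m = ∏ p ∈ D, p := ⟨_, rfl⟩
  obtain ⟨c, hcW, hcm⟩ := Nat.chineseRemainder hcop b r
  rw [← hm] at hcop hcm ⊢
  have hm0 : 0 < m := by rw [hm]; exact Finset.prod_pos fun p hp => (hD p hp).pos
  have hc1 : (c + y).Coprime W := by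
    have h1 : c + y ≡ b + y [MOD W] := hcW.add_right _
    rw [Nat.Coprime, h1.gcd_eq]
    exact hba
  have hc2 : (c + y).Coprime m := by
    rw [hm]
    apply Nat.Coprime.prod_right
    intro p hp
    have hpp := hD p hp
    apply Nat.Coprime.symm
    rw [Nat.Prime.coprime_iff_not_dvd hpp]
    intro hdvd
    apply hr p hp
    have hpm : p ∣ m := by rw [hm]; exact Finset.dvd_prod_of_mem (fun p => p) hp
    have h1 : c + y ≡ r + y [MOD p] := (hcm.of_dvd hpm).add_right _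
    exact (h1.dvd_iff dvd_rfl).mp hdvd
  refine ⟨c + y, hc1.mul_right hc2, ?_⟩
  -- the count
  have hcount : ((((((Ico X (2 * X)).filter (fun n => n % W = b)).filter
      (fun n => (n + y).Prime)).filter (fun n => ∀ p ∈ D, n % p = r % p)).card : ℕ) : ℝ) =
      (((Ico (X + y) (2 * X + y)).filter (fun l => l.Prime ∧ l ≡ c + y [MOD W * m])).card : ℝ) := by
    congr 1
    apply Finset.card_bij (fun n _ => n + y)
    · intro n hn
      rw [mem_filter, mem_filter, mem_filter, mem_Ico] at hn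
      rw [mem_filter, mem_Ico]
      refine ⟨by omega, hn.1.2, ?_⟩
      apply Nat.ModEq.add_right
      rw [← Nat.modEq_and_modEq_iff_modEq_mul hcop]
      constructor
      · have h1 : n ≡ b [MOD W] := by
          rw [Nat.ModEq, hn.1.1.2, Nat.mod_eq_of_lt hb]
        exact h1.trans hcW.symm
      · have h1 := (prod_dvd_iff D hD n r).mp hn.2
        rw [← hm] at h1
        exact h1.trans hcm.symm
    · intro n _ n' _ h; exact Nat.add_right_cancel h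
    · intro l hl
      rw [mem_filter, mem_Ico] at hl
      refine ⟨l - y, ?_, by omega⟩
      have hla : l - y + y = l := by omega
      have h1 : l - y + y ≡ c + y [MOD W * m] := by rw [hla]; exact hl.2.2
      have h2 : l - y ≡ c [MOD W * m] := Nat.ModEq.add_right_cancel' _ h1
      rw [← Nat.modEq_and_modEq_iff_modEq_mul hcop] at h2
      have hlp : (l - y + y).Prime := by rw [hla]; exact hl.2.1
      rw [mem_filter, mem_filter, mem_filter, mem_Ico]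
      refine ⟨⟨⟨by omega, ?_⟩, hlp⟩, ?_⟩
      · have h3 := h2.1.trans hcW
        rw [Nat.ModEq, Nat.mod_eq_of_lt hb] at h3
        exact h3
      · rw [prod_dvd_iff D hD, ← hm]
        exact h2.2.trans hcm
  rw [hcount, count_interval _ _ _ _ (by omega) (by omega)]
  have hP : Pry X y = H343E.pi1 (2 * X + y - 1) - H343E.pi1 (X + y - 1) := by
    rw [← count_interval1 _ _ (by omega) (by omega)]
    rfl
  have hφ : (Nat.totient (W * m) : ℝ) = Nat.totient W * ∏ p ∈ D, ((p : ℝ) - 1) := by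
    rw [Nat.totient_mul hcop, Nat.cast_mul, hm, totient_prod D hD]
  have e1 : Pry X y / Nat.totient W / ∏ p ∈ D, ((p : ℝ) - 1) =
      Pry X y / (Nat.totient (W * m) : ℝ) := by
    rw [hφ, div_div]
  rw [e1, hP]
  obtain ⟨φ, hφe⟩ : ∃ φ : ℝ, φ = (Nat.totient (W * m) : ℝ) := ⟨_, rfl⟩
  rw [← hφe]
  have e2 : H343E.piAP (2 * X + y - 1) (W * m) (c + y) - H343E.piAP (X + y - 1) (W * m) (c + y) -
      (H343E.pi1 (2 * X + y - 1) - H343E.pi1 (X + y - 1)) / φ =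
      (H343E.piAP (2 * X + y - 1) (W * m) (c + y) - H343E.pi1 (2 * X + y - 1) / φ) -
      (H343E.piAP (X + y - 1) (W * m) (c + y) - H343E.pi1 (X + y - 1) / φ) := by ring
  rw [e2]
  exact abs_sub _ _

theorem eqPrimeK (K A E : ℕ) (θ Λ : ℝ) (hθ : 0 < θ) (hΛ : 0 < Λ) : ∃ X₀ : ℕ, ∀ X : ℕ, X₀ ≤ X →
    ∀ W : ℕ, 0 < W → (W : ℝ) ≤ Real.log X ^ (E + 1) → ∀ b : ℕ, b < W → ∀ y : ℕ, 1 ≤ y →
    (y : ℝ) ≤ Λ * (X * Real.log X) → (b + y).Coprime W → ∀ P : Finset ℕ,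
    (∀ p ∈ P, p.Prime ∧ p ≤ X ∧ ¬ p ∣ W) → ∃ Er : Finset ℕ → ℝ,
      Eqd (some y) P (Spr (Sk X W b) y) (Pry X y / Nat.totient W) Er ∧
      ∑ D ∈ P.powerset.filter (fun D : Finset ℕ => ∏ p ∈ D, (p : ℝ) ≤ (X : ℝ) ^ (1 / 2 - θ)),
        (K : ℝ) ^ D.card * Er D ≤ Pry X y / Nat.totient W / Real.log X ^ A := by
  obtain ⟨B, x0, hB⟩ := weighted ((K : ℝ) + 1)
    (by have : (0:ℝ) ≤ K := Nat.cast_nonneg _; linarith) (A + E + 6)
  obtain ⟨X1, hX1⟩ := pnt_shift (1 / 2) Λ (by norm_num) hΛ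
  -- eventual conditions
  have e1 : ∀ᶠ X : ℝ in atTop, (2 : ℝ) ^ B * Real.log X ^ (B + 2 * (E + 1)) ≤ X ^ θ :=
    ev_log _ _ θ hθ
  have e3 : ∀ᶠ X : ℝ in atTop, (1 : ℝ) * Real.log X ^ (E + 2) ≤ X ^ (1 / 2 : ℝ) :=
    ev_log _ _ (1 / 2) (by norm_num)
  have e4 : ∀ᶠ X : ℝ in atTop, (20 + Λ : ℝ) ≤ Real.log X :=
    Real.tendsto_log_atTop.eventually (eventually_ge_atTop _)
  have e5 : ∀ᶠ X : ℝ in atTop, (3 : ℝ) ≤ X := eventually_ge_atTop 3
  obtain ⟨Y, hY⟩ := eventually_atTop.mp (e1.and (e3.and (e4.and e5)))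
  refine ⟨max X1 (max x0 ⌈Y⌉₊), fun X hX W hW0 hW b hb y hy1 hyX hba P hP => ?_⟩
  have hXX1 : X1 ≤ X := (le_max_left _ _).trans hX
  have hXx0 : x0 ≤ X := ((le_max_left _ _).trans (le_max_right _ _)).trans hX
  have hXY : ⌈Y⌉₊ ≤ X := ((le_max_right _ _).trans (le_max_right _ _)).trans hX
  have hXYr : Y ≤ X := (Nat.le_ceil _).trans (by exact_mod_cast hXY)
  obtain ⟨g1, g3, g4, g5⟩ := hY X hXYr
  have hPr := (hX1 X hXX1 y hyX).1
  have hX0 : (0 : ℝ) < X := by linarith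
  have hXn : 1 ≤ X := by
    have : (1 : ℝ) ≤ X := by linarith
    exact_mod_cast this
  obtain ⟨ℓ, hℓ⟩ : ∃ ℓ : ℝ, ℓ = Real.log X := ⟨_, rfl⟩
  rw [← hℓ] at g1 g3 g4 hPr hW hyX ⊢
  have hℓ0 : 0 < ℓ := by linarith
  rw [one_mul] at g3
  have hX12 : (X : ℝ) ^ (1 / 2 : ℝ) * (X : ℝ) ^ (1 / 2 : ℝ) = X := by
    rw [← Real.rpow_add hX0]; norm_num
  have hX12' : (1 : ℝ) ≤ (X : ℝ) ^ (1 / 2 : ℝ) := Real.one_le_rpow (by linarith) (by norm_num)
  have hℓ1 : 1 ≤ ℓ := by linarith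
  have hg3 : ℓ ^ 2 ≤ (X : ℝ) ^ (1 / 2 : ℝ) := by
    refine le_trans ?_ g3
    exact pow_le_pow_right₀ hℓ1 (by omega)
  have hℓ2 : ℓ ^ 2 ≤ X := by nlinarith
  have hW0r : (0 : ℝ) < W := by exact_mod_cast hW0
  -- the two endpoints
  obtain ⟨x1, hx1⟩ : ∃ x1 : ℕ, x1 = X + y - 1 := ⟨_, rfl⟩
  obtain ⟨x2, hx2⟩ : ∃ x2 : ℕ, x2 = 2 * X + y - 1 := ⟨_, rfl⟩
  have hx1a : X ≤ x1 := by omega
  have hx2a : X ≤ x2 := by omega
  have hx1b : x1 ≤ 2 * X + y := by omega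
  have hx2b : x2 ≤ 2 * X + y := by omega
  have hup : ∀ x : ℕ, x ≤ 2 * X + y → (x : ℝ) ≤ X * ℓ ^ 2 := by
    intro x hx
    have h1 : (x : ℝ) ≤ 2 * X + y := by exact_mod_cast hx
    have h2 : (2 : ℝ) * X + Λ * (X * ℓ) ≤ X * ℓ ^ 2 := by
      have h3 : 2 + Λ * ℓ ≤ ℓ ^ 2 := by nlinarith
      nlinarith
    linarith
  obtain ⟨M1, hM10, hM1, hM1s⟩ := hB x1 (hXx0.trans hx1a)
  obtain ⟨M2, hM20, hM2, hM2s⟩ := hB x2 (hXx0.trans hx2a)
  have hlogx : ∀ x : ℕ, X ≤ x → x ≤ 2 * X + y → ℓ ≤ Real.log x ∧ Real.log x ≤ 2 * ℓ := by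
    intro x h1 h2
    have h1r : (X : ℝ) ≤ x := by exact_mod_cast h1
    have h2r := hup x h2
    constructor
    · rw [hℓ]; exact Real.log_le_log hX0 h1r
    · have : (x : ℝ) ≤ X ^ 2 := by nlinarith
      calc Real.log x ≤ Real.log ((X : ℝ) ^ 2) := Real.log_le_log (by linarith) this
        _ = 2 * ℓ := by rw [Real.log_pow, hℓ]; norm_num
  -- the modulus is small
  have hqX : ∀ D : Finset ℕ, (∏ p ∈ D, (p : ℝ)) ≤ (X : ℝ) ^ (1 / 2 - θ) →
      (((W * ∏ p ∈ D, p : ℕ) : ℝ)) ≤ ℓ ^ (E + 1) * (X : ℝ) ^ (1 / 2 - θ) := by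
    intro D hD
    push_cast
    have h0 : (0 : ℝ) ≤ ∏ p ∈ D, (p : ℝ) := prod_nonneg fun _ _ => Nat.cast_nonneg _
    exact mul_le_mul hW hD h0 (by positivity)
  have hqle : ∀ D : Finset ℕ, (∏ p ∈ D, (p : ℝ)) ≤ (X : ℝ) ^ (1 / 2 - θ) → W * ∏ p ∈ D, p ≤ X := by
    intro D hD
    have h1 := hqX D hD
    have h2 : (X : ℝ) ^ (1 / 2 - θ) ≤ (X : ℝ) ^ (1 / 2 : ℝ) :=
      Real.rpow_le_rpow_of_exponent_le (by linarith) (by linarith)
    have h3 : ℓ ^ (E + 1) ≤ (X : ℝ) ^ (1 / 2 : ℝ) := by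
      refine le_trans ?_ g3
      exact pow_le_pow_right₀ hℓ1 (by omega)
    have h4 : (((W * ∏ p ∈ D, p : ℕ) : ℝ)) ≤ X := by
      calc (((W * ∏ p ∈ D, p : ℕ) : ℝ)) ≤ ℓ ^ (E + 1) * (X : ℝ) ^ (1 / 2 - θ) := h1
        _ ≤ (X : ℝ) ^ (1 / 2 : ℝ) * (X : ℝ) ^ (1 / 2 : ℝ) :=
          mul_le_mul h3 h2 (by positivity) (by positivity)
        _ = X := hX12
    exact_mod_cast h4
  have hqsq : ∀ D : Finset ℕ, (∏ p ∈ D, (p : ℝ)) ≤ (X : ℝ) ^ (1 / 2 - θ) → ∀ x : ℕ, X ≤ x →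
      x ≤ 2 * X + y → Real.log x ^ B * (((W * ∏ p ∈ D, p : ℕ) : ℝ)) ^ 2 < x := by
    intro D hD x hxa hxb
    obtain ⟨l1, l2⟩ := hlogx x hxa hxb
    have h1 := hqX D hD
    have h2 : (((W * ∏ p ∈ D, p : ℕ) : ℝ)) ^ 2 ≤ (ℓ ^ (E + 1) * (X : ℝ) ^ (1 / 2 - θ)) ^ 2 :=
      pow_le_pow_left₀ (Nat.cast_nonneg _) h1 2
    have h3 : Real.log x ^ B ≤ (2 * ℓ) ^ B := pow_le_pow_left₀ (by linarith) l2 B
    have h4 : ((X : ℝ) ^ (1 / 2 - θ)) ^ 2 = X * ((X : ℝ) ^ (- (2 * θ))) := by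
      rw [← Real.rpow_natCast, ← Real.rpow_mul hX0.le]
      rw [show (1 / 2 - θ) * ((2 : ℕ) : ℝ) = 1 + (-(2 * θ)) by push_cast; ring, Real.rpow_add hX0,
        Real.rpow_one]
    have h5 : (2 * ℓ) ^ B * (ℓ ^ (E + 1) * (X : ℝ) ^ (1 / 2 - θ)) ^ 2 =
        (2 ^ B * ℓ ^ (B + 2 * (E + 1))) * ((X : ℝ) ^ (- (2 * θ))) * X := by
      rw [mul_pow (ℓ ^ (E + 1)), h4, mul_pow 2 ℓ, ← pow_mul, pow_add ℓ B, mul_comm 2 (E + 1)]
      ring
    have h6 : (2 ^ B * ℓ ^ (B + 2 * (E + 1))) * ((X : ℝ) ^ (- (2 * θ))) ≤ (X : ℝ) ^ (-θ) := by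
      calc (2 ^ B * ℓ ^ (B + 2 * (E + 1))) * ((X : ℝ) ^ (- (2 * θ))) ≤ (X : ℝ) ^ θ * ((X : ℝ) ^ (- (2 * θ))) :=
            mul_le_mul_of_nonneg_right g1 (by positivity)
        _ = (X : ℝ) ^ (-θ) := by
            rw [← Real.rpow_add hX0]; congr 1; ring
    have h7 : (X : ℝ) ^ (-θ) < 1 := Real.rpow_lt_one_of_one_lt_of_neg (by linarith) (by linarith)
    calc Real.log x ^ B * (((W * ∏ p ∈ D, p : ℕ) : ℝ)) ^ 2
        ≤ (2 * ℓ) ^ B * (ℓ ^ (E + 1) * (X : ℝ) ^ (1 / 2 - θ)) ^ 2 :=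
          mul_le_mul h3 h2 (by positivity) (by positivity)
      _ = (2 ^ B * ℓ ^ (B + 2 * (E + 1))) * ((X : ℝ) ^ (- (2 * θ))) * X := h5
      _ ≤ (X : ℝ) ^ (-θ) * X := mul_le_mul_of_nonneg_right h6 hX0.le
      _ < 1 * X := mul_lt_mul_of_pos_right h7 hX0
      _ = X := one_mul _
      _ ≤ x := by exact_mod_cast hxa
  -- the error
  have hPr0 : 0 ≤ Pry X y := by unfold Pry; positivity
  have hφW : (0 : ℝ) < Nat.totient W := by exact_mod_cast Nat.totient_pos.mpr hW0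
  have hΩ0 : 0 ≤ Pry X y / Nat.totient W := by positivity
  obtain ⟨Er, hEr⟩ : ∃ Er : Finset ℕ → ℝ, Er = fun D : Finset ℕ =>
      if (∏ p ∈ D, (p : ℝ)) ≤ (X : ℝ) ^ (1 / 2 - θ) then
        M2 (W * ∏ p ∈ D, p : ℕ) + M1 (W * ∏ p ∈ D, p : ℕ)
      else (X : ℝ) + Pry X y / Nat.totient W := ⟨_, rfl⟩
  refine ⟨Er, ⟨?_, ?_, ?_⟩, ?_⟩
  · -- no prime of `P` divides
    intro n hn p hp a ha
    rw [Option.mem_def, Option.some.injEq] at ha
    subst ha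
    rw [mem_Spr, mem_Sk] at hn
    obtain ⟨hpp, hpX, _⟩ := hP p hp
    intro hdvd
    have := (Nat.prime_dvd_prime_iff_eq hpp hn.2).mp hdvd
    omega
  · intro D
    rw [hEr]
    beta_reduce
    split_ifs
    · have := hM10 (W * ∏ p ∈ D, p)
      have := hM20 (W * ∏ p ∈ D, p)
      positivity
    · positivity
  · intro D hD r hr
    have hDp : ∀ p ∈ D, p.Prime := fun p hp => (hP p (hD hp)).1
    have hph : ∏ p ∈ D, ph (some y) p = ∏ p ∈ D, ((p : ℝ) - 1) := by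
      apply prod_congr rfl
      intro p _
      simp [ph]
    rw [hph, hEr]
    beta_reduce
    split_ifs with hsmall
    · have hcop := cop_prod (M := W) (D := D)
        (fun p hp => ⟨(hP p (hD hp)).1, (hP p (hD hp)).2.2⟩)
      obtain ⟨cc, hcc, hmain⟩ := main_cmpK hXn hW0 hy1 hb hDp hcop hba
        (fun p hp => hr p hp y rfl)
      have hm0 : 0 < ∏ p ∈ D, p := prod_pos fun p hp => (hDp p hp).pos
      have hq1 : 1 ≤ W * ∏ p ∈ D, p := Nat.mul_pos hW0 hm0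
      have hqX' := hqle D hsmall
      have m2 := hM2 _ cc hq1 hcc (hqsq D hsmall x2 hx2a hx2b) (hqX'.trans hx2a)
      have m1 := hM1 _ cc hq1 hcc (hqsq D hsmall x1 hx1a hx1b) (hqX'.trans hx1a)
      rw [hx2] at m2
      rw [hx1] at m1
      refine hmain.trans ?_
      linarith
    · have hcard : (((Spr (Sk X W b) y).filter
          (fun n => ∀ p ∈ D, n % p = r % p)).card : ℝ) ≤ X := by
        have : ((Spr (Sk X W b) y).filter (fun n => ∀ p ∈ D, n % p = r % p)).card ≤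
            (Ico X (2 * X)).card :=
          (card_filter_le _ _).trans ((card_filter_le _ _).trans (card_filter_le _ _))
        rw [Nat.card_Ico] at this
        have h2 : ((Spr (Sk X W b) y).filter (fun n => ∀ p ∈ D, n % p = r % p)).card ≤ X := by
          omega
        exact_mod_cast h2
      have hprod : (1 : ℝ) ≤ ∏ p ∈ D, ((p : ℝ) - 1) := by
        have h1 : ∀ p ∈ D, (1 : ℝ) ≤ (p : ℝ) - 1 := by
          intro p hp
          have : (2 : ℝ) ≤ p := by exact_mod_cast (hDp p hp).two_le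
          linarith
        calc (1 : ℝ) = ∏ _p ∈ D, (1 : ℝ) := by simp
          _ ≤ _ := Finset.prod_le_prod (fun _ _ => zero_le_one) h1
      have h1 : Pry X y / Nat.totient W / ∏ p ∈ D, ((p : ℝ) - 1) ≤ Pry X y / Nat.totient W :=
        div_le_self hΩ0 hprod
      have h2 : 0 ≤ Pry X y / Nat.totient W / ∏ p ∈ D, ((p : ℝ) - 1) := by positivity
      have h3 : (0 : ℝ) ≤ (((Spr (Sk X W b) y).filter
          (fun n => ∀ p ∈ D, n % p = r % p)).card : ℝ) := Nat.cast_nonneg _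
      rw [abs_le]
      constructor <;> linarith
  · -- the sum
    obtain ⟨F, hF⟩ : ∃ F : Finset (Finset ℕ), F = P.powerset.filter
        (fun D : Finset ℕ => ∏ p ∈ D, (p : ℝ) ≤ (X : ℝ) ^ (1 / 2 - θ)) := ⟨_, rfl⟩
    rw [← hF]
    have hFm : ∀ D ∈ F, (∀ p ∈ D, p ∈ P) ∧ ∏ p ∈ D, (p : ℝ) ≤ (X : ℝ) ^ (1 / 2 - θ) := by
      intro D hD
      rw [hF, mem_filter, mem_powerset] at hD
      exact ⟨fun p hp => hD.1 hp, hD.2⟩
    have hFp : ∀ D ∈ F, ∀ p ∈ D, p.Prime := fun D hD p hp => (hP p ((hFm D hD).1 p hp)).1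
    have hFN : ∀ D ∈ F, W * ∏ p ∈ D, p ≤ X := fun D hD => hqle D (hFm D hD).2
    have hsplit : ∑ D ∈ F, (K : ℝ) ^ D.card * Er D =
        ∑ D ∈ F, (K : ℝ) ^ D.card * M2 (W * ∏ p ∈ D, p) +
        ∑ D ∈ F, (K : ℝ) ^ D.card * M1 (W * ∏ p ∈ D, p) := by
      rw [← sum_add_distrib]
      apply sum_congr rfl
      intro D hD
      rw [hEr]
      beta_reduce
      rw [if_pos (hFm D hD).2]
      ring
    have s2 : ∑ D ∈ F, (K : ℝ) ^ D.card * M2 (W * ∏ p ∈ D, p) ≤ x2 / Real.log x2 ^ (A + E + 6) :=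
      (sum_inj K W x2 hW0 F hFp (fun D hD => (hFN D hD).trans hx2a) M2 hM20).trans hM2s
    have s1 : ∑ D ∈ F, (K : ℝ) ^ D.card * M1 (W * ∏ p ∈ D, p) ≤ x1 / Real.log x1 ^ (A + E + 6) :=
      (sum_inj K W x1 hW0 F hFp (fun D hD => (hFN D hD).trans hx1a) M1 hM10).trans hM1s
    have t : ∀ x : ℕ, X ≤ x → x ≤ 2 * X + y →
        (x : ℝ) / Real.log x ^ (A + E + 6) ≤ (1 / 20) * (X / ℓ ^ (A + E + 3)) := by
      intro x h1 h2
      obtain ⟨l1, l2⟩ := hlogx x h1 h2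
      have h2r := hup x h2
      have h3 : (x : ℝ) / Real.log x ^ (A + E + 6) ≤ X * ℓ ^ 2 / ℓ ^ (A + E + 6) := by
        apply div_le_div₀ (by positivity) h2r (by positivity)
        exact pow_le_pow_left₀ hℓ0.le l1 _
      refine h3.trans ?_
      have h4 : (X : ℝ) * ℓ ^ 2 / ℓ ^ (A + E + 6) = (X / ℓ ^ (A + E + 3)) / ℓ := by
        have h6 : ℓ ^ (A + E + 6) = ℓ ^ (A + E + 3) * ℓ * ℓ ^ 2 := by
          rw [show A + E + 6 = (A + E + 3) + 1 + 2 by ring, pow_add ℓ (A + E + 3 + 1) 2,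
            pow_succ ℓ (A + E + 3)]
        have h7 : ℓ ^ 2 ≠ 0 := by positivity
        rw [h6, mul_div_mul_right _ _ h7, div_div]
      rw [h4, div_le_iff₀ hℓ0]
      have h5 : 0 ≤ (X : ℝ) / ℓ ^ (A + E + 3) := by positivity
      nlinarith
    have t1 := t x1 hx1a hx1b
    have t2 := t x2 hx2a hx2b
    have hPr' : (X : ℝ) / (2 * ℓ) ≤ Pry X y := by
      rw [div_le_iff₀ (by positivity)]
      linarith
    have t4 : (X : ℝ) / (2 * ℓ) / ℓ ^ (E + 1) / ℓ ^ A ≤ Pry X y / Nat.totient W / ℓ ^ A := by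
      apply div_le_div_of_nonneg_right _ (by positivity)
      apply div_le_div₀ hPr0 hPr' hφW
      have : (Nat.totient W : ℝ) ≤ W := by exact_mod_cast Nat.totient_le W
      linarith
    have t5 : (X : ℝ) / (2 * ℓ) / ℓ ^ (E + 1) / ℓ ^ A = (1 / 2) * (X / ℓ ^ (A + E + 2)) := by
      have e : 2 * ℓ * (ℓ ^ (E + 1) * ℓ ^ A) = 2 * ℓ ^ (A + E + 2) := by
        rw [show A + E + 2 = (E + 1) + A + 1 by ring, pow_add ℓ (E + 1 + A) 1, pow_add ℓ (E + 1) A]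
        ring
      rw [div_div, div_div, e, ← div_div]
      ring
    have t6 : (X : ℝ) / ℓ ^ (A + E + 3) ≤ X / ℓ ^ (A + E + 2) := by
      apply div_le_div_of_nonneg_left hX0.le (by positivity)
      exact pow_le_pow_right₀ (by linarith) (by omega)
    have t7 : 0 ≤ (X : ℝ) / ℓ ^ (A + E + 2) := by positivity
    rw [hsplit]
    linarith

end Pool.Agent.H533.QS
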