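import Pool.Agent.H533.QM.Masterq

/-!
Sets of integers of level of distribution one half: the moments.
-/

set_option autoImplicit false

open Finset Filter Topology

namespace Pool.Agent.H533.QS

open Pool.Agent.H361R2.PP
open Pool.Agent.H410R2
open Pool.Agent.H410R2.AC (wt GG Pi1 cfg term WW pos Inj coef)
open Pool.Agent.H20R2.EQI (ev_large)
open Pool.Agent.H533.QM

/-- the set `S` of integers of the class `b` modulo `Wq X q` in `[X, 2X)` has about `Ω` elements, for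
about `Ω' y` of them `n + y` is prime (`y` a multiple of `q`), and both are well distributed modulo
the products of the primes larger than `HH X` which do not divide `q`, with weight `K ^ ω` and up to a
power of the logarithm -/
structure Level (K A : ℕ) (θ Λ : ℝ) (X q b : ℕ) (S : Finset ℕ) (Ω : ℝ) (Ω' : ℕ → ℝ) : Prop where
  sub : ∀ n ∈ S, X ≤ n ∧ n < 2 * X ∧ n % Wq X q = b
  pos : 0 < Ω
  pos' : ∀ y, 0 ≤ Ω' y
  int : ∀ P : Finset ℕ, (∀ p ∈ P, p.Prime ∧ HH X < p ∧ ¬ p ∣ q) → ∃ Er : Finset ℕ → ℝ,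
      Eqd none P S Ω Er ∧
      ∑ D ∈ P.powerset.filter (fun D : Finset ℕ => ∏ p ∈ D, (p : ℝ) ≤ (X : ℝ) ^ (1 / 2 - θ)),
        (K : ℝ) ^ D.card * Er D ≤ Ω / Real.log X ^ A
  pri : ∀ y : ℕ, 1 ≤ y → q ∣ y → (y : ℝ) ≤ Λ * (X * Real.log X) → (b + y).Coprime (Wq X q) →
    ∀ P : Finset ℕ, (∀ p ∈ P, p.Prime ∧ HH X < p ∧ p ≤ X ∧ ¬ p ∣ q) → ∃ Er : Finset ℕ → ℝ,
      Eqd (some y) P (Spr S y) (Ω' y) Er ∧
      ∑ D ∈ P.powerset.filter (fun D : Finset ℕ => ∏ p ∈ D, (p : ℝ) ≤ (X : ℝ) ^ (1 / 2 - θ)),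
        (K : ℝ) ^ D.card * Er D ≤ Ω' y / Real.log X ^ A

theorem smS (t : ℕ) (u : Fin t → ℝ) (c0 Λ θ s : ℝ) (hu : ∀ τ, 0 < u τ)
    (hsum : ∑ τ, u τ ≤ θ / 2) (hθ : 0 < θ) (hθ1 : θ ≤ 1 / 32) (hc0 : 1 ≤ c0) (hΛ : 0 < Λ)
    (hs : 0 < s) :
    ∃ (K A : ℕ) (δ₀ : ℝ), 0 < δ₀ ∧ δ₀ ≤ 1 / 8 ∧ ∀ δ : ℝ, 0 < δ → δ ≤ δ₀ →
    ∃ (C : ℝ) (X₀ : ℕ), 0 < C ∧ ∀ X : ℕ, X₀ ≤ X → ∀ q : ℕ, 1 ≤ q → q ≤ X →
    ∀ b : ℕ, b < Wq X q → ∀ (S : Finset ℕ) (Ω : ℝ) (Ω' : ℕ → ℝ), Level K A θ Λ X q b S Ω Ω' →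
    ∀ D : Dat t u c0 δ X, (∀ τ, ∀ R ∈ D.S τ, R ⊆ Q2 δ X q) →
    ∀ SS : Finset (Finset ℕ),
      (∀ R ∈ SS, R ⊆ Q2 δ X q ∧ ∏ p ∈ R, (p : ℝ) ≤ (X : ℝ) ^ (1 / 4 - 2 * θ)) →
    SMq s C Ω Ω' S (Bq X q b ⌊Λ * Ls X q⌋₊) (Q1 δ X q) SS D := by
  obtain ⟨CM, hCM1, hCM⟩ := merq
  obtain ⟨K, A, δ₀, hδ₀, hδ₀8, H⟩ := smq t u c0 (2 * Λ * CM) θ s 2 hu hsum hθ hθ1 hc0
    (by positivity) hs
  refine ⟨K, A, δ₀, hδ₀, hδ₀8, fun δ hδ hδle => ?_⟩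
  obtain ⟨C, d, hC, hd, H2⟩ := H δ hδ hδle
  obtain ⟨X1, H3⟩ := H2 Λ hΛ
  have hδ8 : δ ≤ 1 / 8 := hδle.trans hδ₀8
  obtain ⟨X2, h2⟩ := hCM δ hδ (by linarith)
  obtain ⟨X3, h3⟩ := card_Jq_le 1 Λ one_pos hΛ
  obtain ⟨X4, h4⟩ := sm2q (4 * t + 2) Λ d hΛ hd
  obtain ⟨X7, h7⟩ := Pool.Agent.H325R2.wtx.2 δ hδ (by linarith)
  obtain ⟨X8, h8⟩ := ev_large (Λ + 2) 1 1 one_pos
  have t1 : Tendsto (fun X : ℕ => Real.log (X : ℝ)) atTop atTop :=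
    Real.tendsto_log_atTop.comp tendsto_natCast_atTop_atTop
  obtain ⟨X9, h9⟩ := eventually_atTop.1 (t1.eventually_ge_atTop 1)
  refine ⟨C, X1 + X2 + X3 + X4 + X7 + X8 + X9 + 2, hC,
    fun X hX q hq hqX b hb S Ω Ω' hLev D hDS SS hSS => ?_⟩
  have hL1 := h9 X (by omega)
  have hXn : 2 ≤ X := by omega
  have hX2r : (2 : ℝ) ≤ X := by exact_mod_cast hXn
  obtain ⟨hw1, -, hw3⟩ := h7 X (by omega)
  have hJ : 2 ^ 2 ^ JJ δ X ≤ X := by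
    have h1 : (X : ℝ) ^ δ ≤ (X : ℝ) ^ (1 : ℝ) :=
      Real.rpow_le_rpow_of_exponent_le (by linarith) (by linarith)
    rw [Real.rpow_one] at h1
    exact_mod_cast hw1.trans h1
  have hpr : ∀ p ∈ Q1 δ X q ∪ Q2 δ X q, p.Prime ∧ HH X < p ∧ p ≤ X ∧ ¬ p ∣ q := by
    intro p hp
    rw [mem_union, mem_Q1, mem_Q2] at hp
    rcases hp with h | h
    · exact ⟨h.1.2.1, h.1.2.2, by omega, h.2⟩
    · exact ⟨h.1.2.1, by omega, h.1.1, h.2⟩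
  obtain ⟨Ball, hBall⟩ : ∃ B, B = Bq X q b ⌊Λ * Ls X q⌋₊ := ⟨_, rfl⟩
  rw [← hBall]
  have hV := V1_Q1_pos δ X q
  have hL := Ls_nonneg (X := X) hq
  have hℓ0 : 0 ≤ Ls X q * ((Nat.totient (Wq X q) : ℝ) / Wq X q) :=
    mul_nonneg hL (phW_pos X q).le
  have hcardB : (Ball.card : ℝ) ≤ Λ * Real.log X := by
    rw [hBall, card_Bq hq]
    have h1 : (Jq X q b ⌊Λ * Ls X q⌋₊).card ≤ ⌊Λ * Ls X q⌋₊ := by
      unfold Jq
      refine (card_filter_le _ _).trans ?_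
      rw [Nat.card_Icc]
      omega
    calc ((Jq X q b ⌊Λ * Ls X q⌋₊).card : ℝ) ≤ ⌊Λ * Ls X q⌋₊ := by exact_mod_cast h1
      _ ≤ Λ * Ls X q := Nat.floor_le (by positivity)
      _ ≤ _ := mul_le_mul_of_nonneg_left Ls_le hΛ.le
  have hcardV : (Ball.card : ℝ) * EN.V1 (Q1 δ X q) ≤ (2 * Λ * CM) / δ := by
    have h10 := h3 X (by omega) q hq hqX b
    have h11 := h2 X (by omega) q hq hqX
    rw [hBall, card_Bq hq, le_div_iff₀ hδ]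
    calc ((Jq X q b ⌊Λ * Ls X q⌋₊).card : ℝ) * EN.V1 (Q1 δ X q) * δ ≤
          ((1 + 1) * (Λ * (Ls X q * ((Nat.totient (Wq X q) : ℝ) / Wq X q)))) *
            EN.V1 (Q1 δ X q) * δ := by
          apply mul_le_mul_of_nonneg_right _ hδ.le
          exact mul_le_mul_of_nonneg_right h10 hV.le
      _ = 2 * Λ * (EN.V1 (Q1 δ X q) * ((fr q * Real.log X) *
            ((Nat.totient (Wq X q) : ℝ) / Wq X q)) * δ) := by unfold Ls; ring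
      _ ≤ 2 * Λ * CM := mul_le_mul_of_nonneg_left h11 (by positivity)
  have hpos : ∀ a ∈ Ball, _ := fun a ha => pos_le (X := X) (q := q) (b := b) hΛ hq hqX (by
    rw [← hBall]; exact ha)
  have hsize : ∀ n ∈ S, ∀ a ∈ Ball, 0 < n + a ∧ ((n + a : ℕ) : ℝ) ≤ (X : ℝ) ^ (2 : ℝ) := by
    intro n hn a ha
    have hn := hLev.sub n hn
    obtain ⟨h10, h11, h12, -, -⟩ := hpos a ha
    refine ⟨by omega, ?_⟩
    have h13 := h8 X (by omega)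
    rw [pow_one, Real.rpow_one] at h13
    push_cast
    have h14 : (n : ℝ) ≤ 2 * X := by exact_mod_cast hn.2.1.le
    calc (n : ℝ) + a ≤ 2 * X + Λ * (X * Real.log X) := by linarith
      _ ≤ X * ((Λ + 2) * Real.log X) := by nlinarith
      _ ≤ X * X := mul_le_mul_of_nonneg_left h13 (by linarith)
      _ = (X : ℝ) ^ (2 : ℝ) := by
          rw [show (2 : ℝ) = ((2 : ℕ) : ℝ) by norm_num, Real.rpow_natCast]; ring
  have hV1 : Q1 δ X q ⊆ P1 (HH X) (JJ δ X) := filter_subset _ _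
  have hV2 : Q2 δ X q ⊆ P2 (JJ δ X) X := filter_subset _ _
  have hdl : ∀ o : Option ℕ, (∀ a ∈ o, a ∈ Ball) → ∀ B ⊆ Ball, (∀ a ∈ o, a ∉ B) →
      ∀ U ⊆ B, U.card ≤ 4 * t + 2 → EN.dl (ee o) rho (Q1 δ X q ∪ Q2 δ X q) U ≤ d := by
    intro o ho B hB hoB U hU hUc
    refine h4 X (by omega) q hq _ (fun p hp => ?_) U hUc ?_ o ?_
    · have := hpr p hp
      exact ⟨this.1, this.2.1, this.2.2.2⟩
    · intro a ha
      exact (hpos a (hB (hU ha))).2.2.2.2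
    · intro a ha
      exact ⟨(hpos a (ho a ha)).2.2.2.2, fun h => hoB a ha (hU h)⟩
  have hsub : ∀ B ⊆ Ball, (B.card : ℝ) ≤ Λ * Real.log X ∧
      (B.card : ℝ) * EN.V1 (Q1 δ X q) ≤ (2 * Λ * CM) / δ := by
    intro B hB
    have h10 : (B.card : ℝ) ≤ Ball.card := by exact_mod_cast card_le_card hB
    exact ⟨h10.trans hcardB, (mul_le_mul_of_nonneg_right h10 hV.le).trans hcardV⟩
  have hΩ : 0 ≤ Ω := hLev.pos.le
  obtain ⟨ErI, hErI, hErIs⟩ := hLev.int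
    ((Q1 δ X q ∪ Q2 δ X q).filter (fun p : ℕ => (p : ℝ) ≤ (X : ℝ) ^ (1 / 2 : ℝ)))
    (fun p hp => by
      have := hpr p (mem_filter.1 hp).1
      exact ⟨this.1, this.2.1, this.2.2.2⟩)
  have MI : ∀ B ⊆ Ball, ∀ c : (Fin t → Option ℕ) → ℝ, (∀ σ, |c σ| ≤ c0) → _ :=
    fun B hB c hc => H3 X (by omega) (Q1 δ X q) (Q2 δ X q) hV1 hV2 D hDS SS hSS none S
      Ω ErI hΩ hErI hErIs B (hsub B hB).1 (hsub B hB).2
      (hdl none (fun a ha => by simp at ha) B hB (fun a ha => by simp at ha))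
      (fun n hn a ha => hsize n hn a (hB ha)) c hc
  have MP : ∀ y ∈ Ball, ∀ B ⊆ Ball, y ∉ B → ∀ c : (Fin t → Option ℕ) → ℝ, (∀ σ, |c σ| ≤ c0) →
      |∑ n ∈ Spr S y, AC.WW B c (xq (Q1 δ X q) D n) ^ 2 -
        Ω' y * Zv (EN.V1 (Q1 δ X q)) D B c| ≤
        s * (Ω' y) ∧
      (∀ a ∈ B, |∑ n ∈ Spr S y,
        (rg (Q1 δ X q) a n * FS SS a n * AC.WW (B.erase a) c (xq (Q1 δ X q) D n)) ^ 2 -
        Ω' y * (EN.V1 (Q1 δ X q) * AC.GG SS *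
          Zv (EN.V1 (Q1 δ X q)) D (B.erase a) c)| ≤
        s * (Ω' y * EN.V1 (Q1 δ X q))) := by
    intro y hy B hB hyB c hc
    obtain ⟨h10, h11, h12, h13, -⟩ := hpos y hy
    obtain ⟨ErP, hErP, hErPs⟩ := hLev.pri y h10 h11 h12 h13
      ((Q1 δ X q ∪ Q2 δ X q).filter (fun p : ℕ => (p : ℝ) ≤ (X : ℝ) ^ (1 / 2 : ℝ)))
      (fun p hp => hpr p (mem_filter.1 hp).1)
    have hΩ' : 0 ≤ Ω' y := hLev.pos' y
    have := H3 X (by omega) (Q1 δ X q) (Q2 δ X q) hV1 hV2 D hDS SS hSS (some y)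
      (Spr S y) (Ω' y) ErP hΩ' hErP hErPs B (hsub B hB).1
      (hsub B hB).2
      (hdl (some y) (fun a ha => by
        rw [Option.mem_def, Option.some.injEq] at ha
        rw [← ha]; exact hy) B hB (fun a ha => by
        rw [Option.mem_def, Option.some.injEq] at ha
        rw [← ha]; exact hyB))
      (fun n hn a ha => hsize n (mem_Spr.1 hn).1 a (hB ha)) c hc
    exact ⟨this.1, this.2.1⟩
  intro B hB c hc
  refine ⟨(MI B hB c hc).1, ?_, ?_, ?_, (MI B hB c hc).2.2⟩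
  · intro a ha
    rw [Finset.mem_sdiff] at ha
    have h10 := (MI (insert a B) (insert_subset ha.1 hB) c hc).2.1 a (mem_insert_self _ _)
    rw [erase_insert ha.2] at h10
    exact h10
  · intro a ha
    rw [Finset.mem_sdiff] at ha
    exact (MP a ha.1 B hB ha.2 c hc).1
  · intro a ha a' ha' hne
    rw [Finset.mem_sdiff] at ha ha'
    have h10 := (MP a ha.1 (insert a' B) (insert_subset ha'.1 hB) (by
      rw [mem_insert]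
      rintro (h | h)
      · exact hne h
      · exact ha.2 h) c hc).2 a' (mem_insert_self _ _)
    rw [erase_insert ha'.2] at h10
    exact h10

end Pool.Agent.H533.QS
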